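import Pool.Agent.Helper13.HE.St

/-!
# Project HE: the contradiction for a set of less than `q ^ 4 + q` points, `q ≥ 16`
-/

set_option autoImplicit false

open Module Classical
open scoped LinearAlgebra.Projectivization

namespace Pool.Agent.Helper13.HE

open Pool.Agent.Helper53.PB (tt line)

universe u v

/-- the weights of the sieve -/
private def wt (q e c X : ℤ) : ℕ → ℤ
  | 2 => e * q ^ 7
  | 3 => 2 * (q - 1) ^ 2 * q ^ 6
  | 4 => e * q ^ 5
  | 5 => q ^ 4 * (q - 1) * X
  | 6 => e * q ^ 3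
  | 7 => q ^ 2 * (q - 1) * c
  | 8 => e * q
  | 9 => (q - 1) * c
  | _ => 0

private theorem wt_nonneg {q e c X : ℤ} (hq : 1 ≤ q) (he : 0 ≤ e) (hc : 0 ≤ c) (hX : 0 ≤ X) (s : ℕ) :
    0 ≤ wt q e c X s := by
  have h1 : 0 ≤ q - 1 := by linarith
  have h0 : 0 ≤ q := by linarith
  unfold wt
  split <;> positivity

private theorem wt_zero {q e c X : ℤ} {s : ℕ} (hs : 10 < s) : wt q e c X s = 0 := by
  unfold wt
  split <;> omega

private theorem pow_big (h : ℕ) (h1 : 1 ≤ h) : 3 * 10 ^ h + 1 < 2 * 16 ^ h := by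
  induction h, h1 using Nat.le_induction with
  | base => norm_num
  | succ h _ ih =>
    rw [pow_succ, pow_succ]
    omega

private theorem even_step {q e x A B : ℤ} (k : ℕ) (hq : 1 ≤ q) (hx : 0 ≤ x)
    (h : q * A = q ^ (k + 1) * (e - (q - 1) * x)) (hB : B = q ^ k * e) : A ≤ B := by
  have h0 : 0 < q := by linarith
  have h1 : A = q ^ k * (e - (q - 1) * x) := by
    apply mul_left_cancel₀ h0.ne'
    rw [h, pow_succ]
    ring
  rw [h1, hB]
  have h2 : 0 ≤ q ^ k := by positivity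
  have h3 : 0 ≤ (q - 1) * x := mul_nonneg (by linarith) hx
  nlinarith

private theorem odd_step {q e x A B Y : ℤ} (k : ℕ) (hq : 1 ≤ q) (he : 0 ≤ e) (hY : x ≤ Y)
    (h : q * A = q ^ (k + 1) * (e - (q - 1) * x)) (hB : B = q ^ k * ((q - 1) * Y)) : -A ≤ B := by
  have h0 : 0 < q := by linarith
  have h1 : A = q ^ k * (e - (q - 1) * x) := by
    apply mul_left_cancel₀ h0.ne'
    rw [h, pow_succ]
    ring
  rw [h1, hB]
  have h2 : 0 ≤ q ^ k := by positivity
  have h3 : (q - 1) * x ≤ (q - 1) * Y := mul_le_mul_of_nonneg_left hY (by linarith)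
  nlinarith

section

variable {F : Type u} [Field F] [Finite F] {V : Type v} [AddCommGroup V] [Module F V]
  [FiniteDimensional F V] [Fintype V] {Q : QuadraticForm F V} {T H : Finset (ℙ F V)}
  {m : ℙ F V → ℕ} {h j : ℕ}

/-- the sums over `K^⊥` -/
private theorem sum_d (hMOM : StMOM.{u, v}) (c : Cfg Q T H m h j) {e : ℕ}
    (he : j + e + 1 = Nat.card F) (K : Submodule F V) :
    (Nat.card F : ℤ) * ∑ u ∈ pe Q K, ((Nat.card F : ℤ) ^ 3 + 1 - nu Q T u) =
      (Nat.card F : ℤ) ^ (10 - finrank F K) * (e - ((Nat.card F : ℤ) - 1) * tt T K) := by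
  obtain ⟨m1, m2, -, -⟩ := hMOM F V Q T H m h j c
  have h1 := m1 K
  have h2 := m2 K
  have hq1 : 1 ≤ Nat.card F := by omega
  have hcT := c.cT
  zify [hq1] at h1 h2 hcT he
  rw [Finset.sum_sub_distrib, Finset.sum_const, nsmul_eq_mul, h1, mul_sub, h2, hcT]
  have : (j : ℤ) = (Nat.card F : ℤ) - 1 - e := by linarith
  rw [this]
  ring

/-- the bounds for the sieve -/
private theorem sieve_hyp (hMOM : StMOM.{u, v}) (hX3 : StX3.{u, v}) (hX5 : StX5.{u, v})
    (c : Cfg Q T H m h j) (h2 : 2 ≤ h) {e M : ℕ} (he : j + e + 1 = Nat.card F)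
    (K : Submodule F V) (hK : 2 ≤ finrank F K) (hM : ∀ R ∈ H, R.rep ∈ K → m R ≤ M) :
    (-1) ^ (finrank F K) * ∑ u ∈ pe Q K, ((Nat.card F : ℤ) ^ 3 + 1 - nu Q T u) ≤
      wt (Nat.card F) e T.card ((1 + M) * ((Nat.card F : ℤ) ^ 2 + 1) + H.card * (Nat.card F : ℤ) ^ 2)
        (finrank F K) := by
  have hd := sum_d hMOM c he K
  have hle : finrank F K ≤ 10 := by
    rw [← c.hd]
    exact Submodule.finrank_le K
  have hq1 : 1 ≤ Nat.card F := by omega
  have hqz : (1 : ℤ) ≤ Nat.card F := by exact_mod_cast hq1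
  have hx0 : (0 : ℤ) ≤ tt T K := by positivity
  have hez : (0 : ℤ) ≤ e := by positivity
  have hxT : (tt T K : ℤ) ≤ T.card := by
    exact_mod_cast Finset.card_filter_le _ _
  obtain ⟨s, hs⟩ : ∃ s, s = finrank F K := ⟨_, rfl⟩
  obtain ⟨A, hA⟩ : ∃ A, A = ∑ u ∈ pe Q K, ((Nat.card F : ℤ) ^ 3 + 1 - nu Q T u) := ⟨_, rfl⟩
  rw [← hA] at hd ⊢
  have h3 : s = 3 → (tt T K : ℤ) ≤ 2 * ((Nat.card F : ℤ) - 1) := by
    intro h3
    have := hX3 F V Q T H m h j c h2 K (by rw [← hs, h3])
    zify [hq1] at this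
    exact this
  have h5 : s = 5 → (tt T K : ℤ) ≤
      (1 + M) * ((Nat.card F : ℤ) ^ 2 + 1) + H.card * (Nat.card F : ℤ) ^ 2 := by
    intro h5
    have := hX5 F V Q T H m h j c K M (by rw [← hs, h5]) hM
    exact_mod_cast this
  rw [← hs] at hd hK hle ⊢
  interval_cases s
  · norm_num
    exact even_step 7 hqz hx0 hd (by simp only [wt]; ring)
  · norm_num
    refine odd_step 6 hqz hez (h3 rfl) hd (by simp only [wt]; ring)
  · norm_num
    exact even_step 5 hqz hx0 hd (by simp only [wt]; ring)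
  · norm_num
    refine odd_step 4 hqz hez (h5 rfl) hd (by simp only [wt]; ring)
  · norm_num
    exact even_step 3 hqz hx0 hd (by simp only [wt]; ring)
  · norm_num
    refine odd_step 2 hqz hez hxT hd (by simp only [wt]; ring)
  · norm_num
    exact even_step 1 hqz hx0 hd (by simp only [wt]; ring)
  · norm_num
    refine odd_step 0 hqz hez hxT hd (by simp only [wt]; ring)
  · -- dimension ten
    have htop : K = ⊤ := by
      apply Submodule.eq_top_of_finrank_eq
      rw [← hs, c.hd]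
    have hxT2 : tt T K = T.card := by
      unfold tt
      congr 1
      apply Finset.filter_true_of_mem
      intro P _
      rw [htop]
      trivial
    rw [hxT2] at hd
    norm_num at hd ⊢
    have hcT := c.cT
    have hjj := c.hj
    zify at hcT he hjj
    have h6 : (e : ℤ) - ((Nat.card F : ℤ) - 1) * T.card < 0 := by
      rw [hcT]
      have hj0 : (0 : ℤ) ≤ j := by positivity
      have h7 : (2 : ℤ) ≤ Nat.card F := by linarith
      have h8 : (e : ℤ) ≤ (Nat.card F : ℤ) - 1 := by linarith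
      have h9 : (0 : ℤ) < (Nat.card F : ℤ) ^ 4 + j := by positivity
      nlinarith
    have h7 : A < 0 := by
      by_contra hcon
      push Not at hcon
      have : 0 ≤ (Nat.card F : ℤ) * A := mul_nonneg (by linarith) hcon
      linarith
    simp only [wt]
    exact h7.le

/-- the sum of `nu` over the vectors perpendicular to a subspace without points of `T` -/
private theorem sum_nu (hMOM : StMOM.{u, v}) (c : Cfg Q T H m h j) (K : Submodule F V) (k : ℕ)
    (hK : finrank F K + k = 9) (h0 : tt T K = 0) :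
    (∑ u ∈ pe Q K, (nu Q T u : ℤ)) = (Nat.card F : ℤ) ^ k * T.card := by
  obtain ⟨-, m2, -, -⟩ := hMOM F V Q T H m h j c
  have h2 := m2 K
  have h3 : 10 - finrank F K = k + 1 := by omega
  rw [h0, mul_zero, add_zero, h3] at h2
  have hq0 : (Nat.card F : ℤ) ≠ 0 := by
    have := c.hj
    have : 0 < Nat.card F := by omega
    exact_mod_cast this.ne'
  zify at h2
  apply mul_left_cancel₀ hq0
  rw [h2, pow_succ]
  ring

private theorem tt_bot : tt T (⊥ : Submodule F V) = 0 := by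
  unfold tt
  rw [Finset.card_eq_zero, Finset.filter_eq_empty_iff]
  intro P _ hP
  exact P.rep_nonzero ((Submodule.mem_bot F).1 hP)

private theorem tt_span (c : Cfg Q T H m h j) {R : ℙ F V} (hR : R ∈ H) :
    tt T (Submodule.span F {R.rep}) = 0 := by
  unfold tt
  rw [Finset.card_eq_zero, Finset.filter_eq_empty_iff]
  intro P hP hPR
  exact c.dis R hR (Pool.Agent.Helper53.PB.eq_of_rep_mem_span hPR ▸ hP)

private theorem pe_span (R : ℙ F V) : pe Q (Submodule.span F {R.rep}) =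
    Finset.univ.filter (fun u => QuadraticMap.polar Q u R.rep = 0) := by
  unfold pe
  apply Finset.filter_congr
  intro u _
  constructor
  · intro h
    exact h _ (Submodule.mem_span_singleton_self _)
  · intro h x hx
    obtain ⟨a, rfl⟩ := Submodule.mem_span_singleton.1 hx
    rw [QuadraticMap.polar_smul_right, h, smul_zero]

/-- the sum of `nu (q ^ 3 + 1 - nu)` over all vectors -/
private theorem sum_all (hMOM : StMOM.{u, v}) (c : Cfg Q T H m h j) :
    ∑ u : V, (nu Q T u : ℤ) * ((Nat.card F : ℤ) ^ 3 + 1 - nu Q T u) =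
      -(j * T.card * (Nat.card F : ℤ) ^ 8) := by
  obtain ⟨-, -, m3, -⟩ := hMOM F V Q T H m h j c
  have h1 := sum_nu hMOM c ⊥ 9 (by rw [finrank_bot]) tt_bot
  have h2 : pe Q (⊥ : Submodule F V) = Finset.univ := by
    unfold pe
    apply Finset.filter_true_of_mem
    intro u _ x hx
    rw [(Submodule.mem_bot F).1 hx]
    exact (QuadraticMap.polarBilin Q u).map_zero
  rw [h2] at h1
  have hcT := c.cT
  zify at m3 hcT
  have h3 : ∑ u : V, (nu Q T u : ℤ) * ((Nat.card F : ℤ) ^ 3 + 1 - nu Q T u) =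
      ((Nat.card F : ℤ) ^ 3 + 1) * ∑ u : V, (nu Q T u : ℤ) - ∑ u : V, (nu Q T u : ℤ) ^ 2 := by
    rw [Finset.mul_sum, ← Finset.sum_sub_distrib]
    apply Finset.sum_congr rfl
    intro u _
    ring
  have h4 : ∑ u : V, (nu Q T u : ℤ) ^ 2 = T.card * (Nat.card F : ℤ) ^ 9 +
      (T.card : ℤ) ^ 2 * (Nat.card F : ℤ) ^ 8 - T.card * (Nat.card F : ℤ) ^ 8 := by linarith
  rw [h3, h1, h4, hcT]
  ring

/-- the sum of `nu (q ^ 3 + 1 - nu)` over the hyperplane of a heavy point -/
private theorem sum_one (hMOM : StMOM.{u, v}) (c : Cfg Q T H m h j) {R : ℙ F V} (hR : R ∈ H) :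
    ∑ u ∈ Finset.univ.filter (fun u => QuadraticMap.polar Q u R.rep = 0),
      (nu Q T u : ℤ) * ((Nat.card F : ℤ) ^ 3 + 1 - nu Q T u) =
      -(j * T.card * (Nat.card F : ℤ) ^ 7) -
        lam T R * (Nat.card F : ℤ) ^ 7 * ((Nat.card F : ℤ) - 1) := by
  obtain ⟨-, -, -, m4⟩ := hMOM F V Q T H m h j c
  have h1 := sum_nu hMOM c (Submodule.span F {R.rep}) 8
    (by rw [finrank_span_singleton R.rep_nonzero]) (tt_span c hR)
  rw [pe_span] at h1
  have m4 := m4 R hR
  have hcT := c.cT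
  zify at m4 hcT
  obtain ⟨S, hS⟩ : ∃ S, S = Finset.univ.filter (fun u => QuadraticMap.polar Q u R.rep = 0) :=
    ⟨_, rfl⟩
  rw [← hS] at h1 m4 ⊢
  have h3 : ∑ u ∈ S, (nu Q T u : ℤ) * ((Nat.card F : ℤ) ^ 3 + 1 - nu Q T u) =
      ((Nat.card F : ℤ) ^ 3 + 1) * ∑ u ∈ S, (nu Q T u : ℤ) - ∑ u ∈ S, (nu Q T u : ℤ) ^ 2 := by
    rw [Finset.mul_sum, ← Finset.sum_sub_distrib]
    apply Finset.sum_congr rfl
    intro u _
    ring
  have h4 : ∑ u ∈ S, (nu Q T u : ℤ) ^ 2 = T.card * (Nat.card F : ℤ) ^ 8 +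
      lam T R * (Nat.card F : ℤ) ^ 8 + (T.card : ℤ) ^ 2 * (Nat.card F : ℤ) ^ 7 -
      T.card * (Nat.card F : ℤ) ^ 7 - lam T R * (Nat.card F : ℤ) ^ 7 := by linarith
  rw [h3, h1, h4, hcT]
  ring

/-- the main inequality -/
private theorem main_ineq (hGEN : StGEN.{u, v}) (hMOM : StMOM.{u, v}) (c : Cfg Q T H m h j)
    (hH : H.Nonempty) :
    (Nat.card F : ℤ) ^ 7 * (j * ((Nat.card F : ℤ) ^ 4 + 1 + j) * ((Nat.card F : ℤ) - H.card)) ≤
      (Nat.card F : ℤ) ^ 7 * ((Nat.card F : ℤ) - 1) * ((∑ R ∈ H, lam T R : ℕ) : ℤ) +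
      ((Nat.card F : ℤ) ^ 3 + 1) *
        ∑ u : V, (((H.filter (fun R => QuadraticMap.polar Q u R.rep = 0)).card - 1 : ℕ) : ℤ) *
          ((Nat.card F : ℤ) ^ 3 + 1 - nu Q T u) := by
  obtain ⟨M, hM⟩ : ∃ M : ℤ, M = (Nat.card F : ℤ) ^ 3 + 1 := ⟨_, rfl⟩
  have hall := sum_all hMOM c
  have hone := fun R (hR : R ∈ H) => sum_one hMOM c hR
  rw [← hM] at hall ⊢
  simp only [← hM] at hone
  have hpt : ∀ u : V, 0 ≤ (nu Q T u : ℤ) * (M - nu Q T u) -
      ((H.filter (fun R => QuadraticMap.polar Q u R.rep = 0)).card : ℤ) *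
        ((nu Q T u : ℤ) * (M - nu Q T u)) +
      M * ((((H.filter (fun R => QuadraticMap.polar Q u R.rep = 0)).card - 1 : ℕ) : ℤ) *
          (M - nu Q T u)) := by
    intro u
    obtain ⟨n, hn⟩ : ∃ n, n = (H.filter (fun R => QuadraticMap.polar Q u R.rep = 0)).card :=
      ⟨_, rfl⟩
    rw [← hn]
    rcases Nat.eq_zero_or_pos n with h0 | h0
    · rw [h0] at hn
      have hgen : nu Q T u ≤ Nat.card F ^ 3 + 1 := by
        apply hGEN F V Q T H m h j c u
        · rintro rfl
          have h1 : H.filter (fun R => QuadraticMap.polar Q (0 : V) R.rep = 0) = H := by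
            apply Finset.filter_true_of_mem
            intro R _
            rw [QuadraticMap.polar_comm]
            exact (QuadraticMap.polarBilin Q R.rep).map_zero
          rw [h1] at hn
          exact hH.card_pos.ne hn
        · intro R hR hu
          have h1 : R ∈ H.filter (fun R => QuadraticMap.polar Q u R.rep = 0) :=
            Finset.mem_filter.2 ⟨hR, hu⟩
          rw [Finset.card_eq_zero.1 hn.symm] at h1
          exact absurd h1 (Finset.notMem_empty _)
      have h2 : (nu Q T u : ℤ) ≤ M := by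
        rw [hM]
        exact_mod_cast hgen
      rw [h0]
      simp only [Nat.cast_zero, zero_mul, sub_zero, zero_tsub, mul_zero, add_zero]
      exact mul_nonneg (by positivity) (by linarith)
    · obtain ⟨k, rfl⟩ : ∃ k, n = k + 1 := ⟨n - 1, by omega⟩
      rw [Nat.add_sub_cancel]
      push_cast
      have h1 : (nu Q T u : ℤ) * (M - nu Q T u) - ((k : ℤ) + 1) *
          ((nu Q T u : ℤ) * (M - nu Q T u)) + M * ((k : ℤ) * (M - nu Q T u)) =
          k * (M - nu Q T u) ^ 2 := by ring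
      rw [h1]
      positivity
  have hsum := Finset.sum_nonneg (fun u (_ : u ∈ (Finset.univ : Finset V)) => hpt u)
  rw [Finset.sum_add_distrib, Finset.sum_sub_distrib, ← Finset.mul_sum, hall] at hsum
  have hsw : ∑ u : V, ((H.filter (fun R => QuadraticMap.polar Q u R.rep = 0)).card : ℤ) *
        ((nu Q T u : ℤ) * (M - nu Q T u)) =
      ∑ R ∈ H, ∑ u ∈ Finset.univ.filter (fun u => QuadraticMap.polar Q u R.rep = 0),
        (nu Q T u : ℤ) * (M - nu Q T u) := by
    simp_rw [Finset.sum_filter]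
    rw [Finset.sum_comm]
    apply Finset.sum_congr rfl
    intro u _
    rw [← Finset.sum_filter, Finset.sum_const, nsmul_eq_mul]
  rw [hsw, Finset.sum_congr rfl hone, Finset.sum_sub_distrib, Finset.sum_const, nsmul_eq_mul,
    ← Finset.sum_mul, ← Finset.sum_mul] at hsum
  have hcT := c.cT
  zify at hcT
  rw [hcT] at hsum
  push_cast
  linarith

/-- the weighted sum of the sieve -/
private theorem sieve_sum {q e c Xs Xb : ℤ} (t : ℕ) :
    ∑ s ∈ Finset.Icc 2 10, ((t.choose s : ℤ) * wt q e c Xs s +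
      (t.choose (s - 1) : ℤ) * wt q e c Xb s) =
    ((t + 1).choose 2) * e * q ^ 7 + ((t + 1).choose 3) * (2 * (q - 1) ^ 2 * q ^ 6) +
    ((t + 1).choose 4) * e * q ^ 5 +
    q ^ 4 * (q - 1) * ((t.choose 5 : ℕ) * Xs + (t.choose 4 : ℕ) * Xb) +
    ((t + 1).choose 6) * e * q ^ 3 + ((t + 1).choose 7) * (q ^ 2 * (q - 1) * c) +
    ((t + 1).choose 8) * e * q + ((t + 1).choose 9) * ((q - 1) * c) := by
  have h1 : ∀ f : ℕ → ℤ, ∑ s ∈ Finset.Icc 2 10, f s = f 2 + f 3 + f 4 + f 5 + f 6 + f 7 + f 8 +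
      f 9 + f 10 := by
    intro f
    have : Finset.Icc 2 10 = ({2, 3, 4, 5, 6, 7, 8, 9, 10} : Finset ℕ) := by decide
    rw [this]
    simp
    ring
  rw [h1]
  simp only [wt, Nat.choose_succ_succ t, Nat.cast_add]
  norm_num
  ring

theorem cfg_false (hTBD : StTBD.{u, v}) (hGEN : StGEN.{u, v}) (hLAM : StLAM.{u, v})
    (hMOM : StMOM.{u, v}) (hX3 : StX3.{u, v}) (hX5 : StX5.{u, v}) (hSIV : StSIV.{u, v})
    (hFIN : StFIN) (c : Cfg Q T H m h j) (h4 : 4 ≤ h) : False := by
  obtain ⟨e, he⟩ : ∃ e, j + e + 1 = Nat.card F := ⟨Nat.card F - 1 - j, by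
    have := c.hj
    omega⟩
  have htb := hTBD F V Q T H m h j e c he
  have he1 : 1 ≤ e := by
    have := c.hj
    omega
  rcases H.eq_empty_or_nonempty with hH | hH
  · -- no heavy points
    have hj0 : j = 0 := by
      rw [← c.ms, hH, Finset.sum_empty]
    have h1 := pow_big h (by omega)
    rw [hH, hj0, Finset.card_empty] at htb
    have h2 : e + 1 = Nat.card F := by omega
    have h3 : Nat.card F ^ 3 * (0 + 2 + 2 * e) = 2 * 16 ^ h := by
      have h5 : 0 + 2 + 2 * e = 2 * Nat.card F := by omega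
      have h6 : (16 : ℕ) = 2 ^ 4 := by norm_num
      rw [h5, c.hq, h6, ← pow_mul, ← pow_mul]
      ring
    omega
  · obtain ⟨R1, hR1, hmax⟩ := Finset.exists_max_image H m hH
    have hm1 := c.mp R1 hR1
    have hsum := c.ms
    rw [← Finset.add_sum_erase H m hR1] at hsum
    obtain ⟨D, hD⟩ : ∃ D, D = ∑ R ∈ H.erase R1, m R := ⟨_, rfl⟩
    rw [← hD] at hsum
    have ht1 : 1 ≤ H.card := hH.card_pos
    have hcard : (H.erase R1).card = H.card - 1 := Finset.card_erase_of_mem hR1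
    have htD : H.card ≤ D + 1 := by
      have h1 : (H.erase R1).card ≤ D := by
        rw [hD, Finset.card_eq_sum_ones]
        exact Finset.sum_le_sum fun R hR => c.mp R (Finset.mem_of_mem_erase hR)
      omega
    have hjt : j ≤ H.card * m R1 := by
      rw [← c.ms, ← smul_eq_mul]
      exact Finset.sum_le_card_nsmul _ _ _ hmax
    -- the other masses
    have hoth : ∀ R ∈ H.erase R1, m R + H.card ≤ D + 2 := by
      intro R hR
      have h1 := Finset.add_sum_erase (H.erase R1) m hR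
      have h2 : ((H.erase R1).erase R).card ≤ ∑ R' ∈ (H.erase R1).erase R, m R' := by
        rw [Finset.card_eq_sum_ones]
        exact Finset.sum_le_sum fun R' hR' =>
          c.mp R' (Finset.mem_of_mem_erase (Finset.mem_of_mem_erase hR'))
      have h3 : ((H.erase R1).erase R).card = H.card - 1 - 1 := by
        rw [Finset.card_erase_of_mem hR, hcard]
      have h4 : 0 < (H.erase R1).card := Finset.card_pos.2 ⟨R, hR⟩
      omega
    obtain ⟨S, hS⟩ : ∃ S : ℤ, S = ∑ R ∈ H, (m R : ℤ) * (m R + 1) := ⟨_, rfl⟩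
    have hSle : S ≤ (m R1 : ℤ) * (m R1 + 1) + D * (D + 3 - H.card) := by
      rw [hS, ← Finset.add_sum_erase H (fun R => (m R : ℤ) * (m R + 1)) hR1]
      refine add_le_add le_rfl ?_
      have h1 : (D : ℤ) = ∑ R ∈ H.erase R1, (m R : ℤ) := by
        rw [hD]
        push_cast
        rfl
      rw [h1, Finset.sum_mul, ← h1]
      apply Finset.sum_le_sum
      intro R hR
      apply mul_le_mul_of_nonneg_left _ (by positivity)
      have := hoth R hR
      zify at this
      linarith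
    have hLle : ((∑ R ∈ H, lam T R : ℕ) : ℤ) ≤ (Nat.card F : ℤ) ^ 3 * S +
        H.card * (j * (1 + j)) := by
      rw [hS, Finset.mul_sum, ← nsmul_eq_mul, ← Finset.sum_const, ← Finset.sum_add_distrib]
      push_cast
      apply Finset.sum_le_sum
      intro R hR
      have := hLAM F V Q T H m h j c R hR
      zify at this
      linarith
    have hmain := main_ineq hGEN hMOM c hH
    obtain ⟨L, hL⟩ : ∃ L : ℤ, L = ((∑ R ∈ H, lam T R : ℕ) : ℤ) := ⟨_, rfl⟩
    obtain ⟨Z, hZ⟩ : ∃ Z : ℤ, Z = ∑ u : V,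
      (((H.filter (fun R => QuadraticMap.polar Q u R.rep = 0)).card - 1 : ℕ) : ℤ) *
          ((Nat.card F : ℤ) ^ 3 + 1 - nu Q T u) := ⟨_, rfl⟩
    rw [← hL, ← hZ] at hmain
    rw [← hL] at hLle
    have hqz : (1 : ℤ) ≤ Nat.card F := by
      have : 1 ≤ Nat.card F := by omega
      exact_mod_cast this
    have hmin : ∀ R ∈ H, R ≠ R1 → m R ≤ min (m R1) D := by
      intro R hR hne
      refine le_min (hmax R hR) ?_
      rw [hD]
      exact Finset.single_le_sum (f := m) (fun _ _ => Nat.zero_le _)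
        (Finset.mem_erase.2 ⟨hne, hR⟩)
    have hsiv := hSIV F V Q H R1 (fun u => (Nat.card F : ℤ) ^ 3 + 1 - nu Q T u)
      (wt (Nat.card F) e T.card ((1 + ((min (m R1) D : ℕ) : ℤ)) * ((Nat.card F : ℤ) ^ 2 + 1) +
        H.card * (Nat.card F : ℤ) ^ 2))
      (wt (Nat.card F) e T.card ((1 + (m R1 : ℤ)) * ((Nat.card F : ℤ) ^ 2 + 1) +
        H.card * (Nat.card F : ℤ) ^ 2)) 10 hR1
      (fun s => wt_nonneg hqz (by positivity) (by positivity) (by positivity) s)
      (fun s => wt_nonneg hqz (by positivity) (by positivity) (by positivity) s)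
      (fun s hs => ⟨wt_zero hs, wt_zero hs⟩)
      (fun K hK hRK => sieve_hyp hMOM hX3 hX5 c (by omega) he K hK
        (fun R hR hRK' => hmin R hR (fun h => hRK (h ▸ hRK'))))
      (fun K hK _ => sieve_hyp hMOM hX3 hX5 c (by omega) he K hK (fun R hR _ => hmax R hR))
    rw [sieve_sum, Nat.sub_add_cancel ht1] at hsiv
    have hcT := c.cT
    zify at hcT
    have hfin := hFIN h j e H.card (m R1) D (Nat.card F : ℤ) S L Z h4
      (by rw [c.hq]; push_cast; rfl) (by exact_mod_cast he) he1 ht1 hsum htD hjt hSle hLle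
      (by
        rw [hZ, ← hcT]
        exact hsiv)
      (by exact_mod_cast htb)
    linarith

end

end Pool.Agent.Helper13.HE
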