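import Pool.Agent.Helper53.PB.HypMain

/-!
# Project HE (MP_a1f43d_co): hyperbolic quadrics over the fields of even order, definitions

`q = Nat.card F = 2 ^ h`, `V` of dimension 10 with a quadratic form `Q` whose polar form
`b x y = QuadraticMap.polar Q x y` is non-degenerate (`F` has characteristic two, so `b x x = 0` and
`b x y = b y x`).  Points are elements of `ℙ F V`, a point `P` is represented by `P.rep`.
`T` is a set of singular points (in the application: a smallest set meeting all generators),
`H` the set of heavy points, `m` their masses (`Pool.Agent.Helper53.PB.eps`).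
-/

set_option autoImplicit false

open Module Classical
open scoped LinearAlgebra.Projectivization

namespace Pool.Agent.Helper13.HE

open Pool.Agent.Helper53.PB (tt line)

universe u v

variable {F : Type u} {V : Type v} [Field F] [AddCommGroup V] [Module F V]

/-- number of points of `T` perpendicular to the vector `u` -/
noncomputable def nu (Q : QuadraticForm F V) (T : Finset (ℙ F V)) (u : V) : ℕ :=
  (T.filter (fun P => QuadraticMap.polar Q u P.rep = 0)).card

/-- total mass of the heavy points in `K` -/
noncomputable def mass (H : Finset (ℙ F V)) (m : ℙ F V → ℕ) (K : Submodule F V) : ℕ :=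
  ∑ R ∈ H.filter (fun R => R.rep ∈ K), m R

/-- the vectors perpendicular to `K` -/
noncomputable def pe [Fintype V] (Q : QuadraticForm F V) (K : Submodule F V) : Finset V :=
  Finset.univ.filter (fun u => ∀ x ∈ K, QuadraticMap.polar Q u x = 0)

/-- number of ordered pairs of different points of `T` on a line through `R` -/
noncomputable def lam (T : Finset (ℙ F V)) (R : ℙ F V) : ℕ :=
  ((T ×ˢ T).filter (fun p => p.1 ≠ p.2 ∧ R.rep ∈ line p.1 p.2)).card

/-- `T` has `q ^ 4 + 1 + j` points, `j ≤ q - 2`, and is an ovoid with heavy points `R ∈ H` of mass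
`m R`, of total mass `j`: every totally singular line through a point of `T` contains one more
point of `T` than its mass. -/
structure Cfg (Q : QuadraticForm F V) (T H : Finset (ℙ F V)) (m : ℙ F V → ℕ) (h j : ℕ) :
    Prop where
  hq : Nat.card F = 2 ^ h
  h1 : 1 ≤ h
  hd : finrank F V = 10
  nd : ∀ x, (∀ y, QuadraticMap.polar Q x y = 0) → x = 0
  sT : ∀ P ∈ T, Q P.rep = 0
  sH : ∀ R ∈ H, Q R.rep = 0
  cT : T.card = Nat.card F ^ 4 + 1 + j
  hj : j + 2 ≤ Nat.card F
  dis : ∀ R ∈ H, R ∉ T
  mp : ∀ R ∈ H, 1 ≤ m R
  ms : ∑ R ∈ H, m R = j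
  ln : ∀ P ∈ T, ∀ X : ℙ F V, X ≠ P → Q X.rep = 0 → QuadraticMap.polar Q P.rep X.rep = 0 →
    tt T (line P X) = 1 + mass H m (line P X)
  up : ∀ R ∈ H, nu Q T R.rep ≤ (1 + m R) * Nat.card F ^ 3 + 1 + j

end Pool.Agent.Helper13.HE
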