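import Pool.Agent.Helper13.HE.Asm

/-!
# Project HE: hyperbolic spaces over all fields of even order
-/

set_option autoImplicit false

open Module Classical
open scoped LinearAlgebra.Projectivization

namespace Pool.Agent.Helper13.HE

open Pool.Agent.Helper53.PB

universe u v

/-- a set meeting all generators of `Q^+(9,q)`, `q` even, has at least `q ^ 4 + q` points -/
theorem five_lower (hEXT : StEXT.{u, v}) (hTBD : StTBD.{u, v}) (hGEN : StGEN.{u, v})
    (hLAM : StLAM.{u, v}) (hMOM : StMOM.{u, v}) (hX3 : StX3.{u, v}) (hX5 : StX5.{u, v})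
    (hSIV : StSIV.{u, v}) (hFIN : StFIN) {F : Type u} [Field F] [Finite F] {h : ℕ}
    (hF : Nat.card F = 2 ^ h) (V : Type v) [AddCommGroup V] [Module F V] [FiniteDimensional F V]
    (φ : Form F V) (hφ : φ.kind = .orthogonal) (hp : HasParams φ 10 5) (T : Finset (ℙ F V))
    (hT : φ.toPolar.Block T) : Nat.card F ^ 4 + Nat.card F ≤ T.card := by
  have hh : h ≠ 0 := by
    rintro rfl
    have := Finite.one_lt_card (α := F)
    rw [hF] at this
    simp at this
  have hfinV : Finite V := Module.finite_of_finite F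
  have hfV : Fintype V := Fintype.ofFinite V
  by_cases h2 : h = 2 ∨ h = 3
  · exact hyp_five_lower hF h2 V φ hφ hp T hT
  by_contra hlt
  push Not at hlt
  obtain ⟨S, hS, hmin⟩ := exists_min (P := φ.toPolar) ⟨T, hT⟩
  have hST := hmin T hT
  obtain ⟨j, hset⟩ := hyp_setup φ hφ (k := 3) hp hS hmin
  have hcard := hset.card
  rw [Fintype.card_unit, one_mul, show 3 + 1 = 4 by rfl] at hcard
  have hj : j + 2 ≤ Nat.card F := by omega
  cases φ with
  | symplectic B alt nd => cases hφ
  | hermitian σ i n B hm nd => cases hφ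
  | orthogonal Q nd =>
    obtain ⟨H, m, c⟩ := hEXT F V Q nd h j S hF (by omega) hp hset hj
    rcases Nat.lt_or_ge h 4 with h4 | h4
    · have h1 : h = 1 := by omega
      subst h1
      have hj0 : j = 0 := by
        rw [hF] at hj
        omega
      have hH : H.card = 0 := by
        have h3 : H.card ≤ ∑ R ∈ H, m R := by
          rw [Finset.card_eq_sum_ones]
          exact Finset.sum_le_sum fun R hR => c.mp R hR
        rw [c.ms, hj0] at h3
        omega
      have htb := hTBD F V Q S H m 1 j 1 c (by rw [hF, hj0]; norm_num)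
      rw [hH, hj0, hF] at htb
      norm_num at htb
    · exact cfg_false hTBD hGEN hLAM hMOM hX3 hX5 hSIV hFIN c h4

theorem class_even {F : Type u} [Field F] [Finite F] {h : ℕ} (hF : Nat.card F = 2 ^ h)
    (hlow : ∀ (V : Type v) [AddCommGroup V] [Module F V] [FiniteDimensional F V]
      (φ : Form F V), φ.kind = .orthogonal → HasParams φ 10 5 → ∀ T : Finset (ℙ F V),
      φ.toPolar.Block T → Nat.card F ^ 4 + Nat.card F ≤ T.card) (n : ℕ) :
    ClassMin.{u, v} F .orthogonal (2 * (n + 5)) (n + 5)
      (Nat.card F ^ (n + 4) + Nat.card F ^ (n + 1)) := by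
  induction n with
  | zero =>
    intro V _ _ _ φ hφ hp
    refine ⟨?_, fun T hT => ?_⟩
    · obtain ⟨T, hT, hle⟩ := class_cone (d := 8) (r := 4) (m := Nat.card F ^ 3 + 1)
        (fun V _ _ _ φ h1 h3 => by
          obtain ⟨T, hT, hc⟩ := exists_ovoid hF φ h1 h3
          exact ⟨T, hT, hc.le⟩) φ hφ hp
      refine ⟨T, hT, hle.trans (le_of_eq ?_)⟩
      ring
    · have := hlow V φ hφ hp T hT
      simpa using this
  | succ n ih =>
    have h3 := ClassMin.step (by omega) (by
      rw [pow_succ, pow_succ]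
      exact (Nat.dvd_mul_left _ _).add (Nat.dvd_mul_left _ _)) ih
    have h4 : Nat.card F * (Nat.card F ^ (n + 4) + Nat.card F ^ (n + 1)) =
        Nat.card F ^ (n + 1 + 4) + Nat.card F ^ (n + 1 + 1) := by ring
    rw [h4] at h3
    exact h3

end Pool.Agent.Helper13.HE
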