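import Pool.Agent.Helper13.HE.Fin
import Pool.Agent.Helper95.HE.M_RP
import Pool.Agent.Helper8.HE.M_CAW
import Pool.Agent.Helper89.HE.M_DCG
import Pool.Agent.Helper99.HE.M_EXT
import Pool.Agent.Helper16.HE.M_TBD
import Pool.Agent.Helper32.HE.M_LAM
import Pool.Agent.Helper5.HE.M_MOM
import Pool.Agent.Helper28.HE.M_CX
import Pool.Agent.Helper87.HE.M_X5
import Pool.Agent.Helper54.HE.M_SIV
import Pool.Agent.Helper7.HE.M_FNB
import Pool.Agent.Helper41.HE.M_FIN

/-!
# Project HE: the theorem for all fields of even order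
-/

set_option autoImplicit false

open Module Classical
open scoped LinearAlgebra.Projectivization

namespace Pool.Agent.Helper13.HE

open Pool.Agent.Helper53.PB

universe u v

/-- the minimum for all hyperbolic quadrics of rank at least five over a field of even order -/
theorem hyp_even {F : Type u} [Field F] [Finite F] {h : ℕ} (hF : Nat.card F = 2 ^ h) (n : ℕ) :
    ClassMin.{u, v} F .orthogonal (2 * (n + 5)) (n + 5)
      (Nat.card F ^ (n + 4) + Nat.card F ^ (n + 1)) :=
  class_even hF (fun V _ _ _ φ hφ hp T hT =>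
    five_lower Helper99.HE.hEXT
      (Helper16.HE.hTBD Helper8.HE.hCAW Helper89.HE.hDEG)
      (Helper89.HE.hGEN Helper95.HE.hRKB Helper89.HE.hDEG)
      (Helper32.HE.hLAM (Helper89.HE.hCLQ Helper89.HE.hDEG))
      Helper5.HE.hMOM
      (Helper28.HE.hX3 Helper95.HE.hRKB Helper95.HE.hPAR (Helper89.HE.hCLQ Helper89.HE.hDEG))
      (Helper87.HE.hX5 Helper95.HE.hRKB Helper95.HE.hPAR Helper8.HE.hCAW Helper89.HE.hDEG
        (Helper28.HE.hCOV (Helper89.HE.hCLQ Helper89.HE.hDEG)))
      Helper54.HE.hSIV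
      (Helper41.HE.hFIN Helper7.HE.hFNB) hF V φ hφ hp T hT) n

end Pool.Agent.Helper13.HE
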