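import Pool.Agent.Helper13.HE.Defs

/-!
# Project HE (MP_a1f43d_co): statements with complete proofs

Every `StXXX` is proved in one module as `theorem hXXX`, with the other statements it uses as
hypotheses (they are named in the docstring).

Everywhere: `q = Nat.card F = 2 ^ h`, `b x y = QuadraticMap.polar Q x y`.  `b` is bilinear
(`QuadraticMap.polar_add_left`, `polar_smul_left`, ..., or the bilinear map `QuadraticMap.polarBilin Q`
with `QuadraticMap.polarBilin_apply_apply`), symmetric (`QuadraticMap.polar_comm`) and, since the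
characteristic is two (`charP_of_card_eq_prime_pow`, as in `PB.rank_bound`), alternating:
`b x x = Q (x + x) - Q x - Q x = 0`.  `Q (c x) = c * c * Q x`, `Q (x + y) = Q x + Q y + b x y`.
`T`: a set of singular points with `q ^ 4 + 1 + j` elements, `H`: the heavy points, `t = H.card`,
`m`: masses, `e = q - 1 - j ≥ 1`.  Useful lemmas of `Pool.Agent.Helper53.PB.Count`: `eq_of_rep_mem_span`,
`left_mem_line`, `right_mem_line`, `line_le`, `finrank_line`, `mem_line`, `line_eq`.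
-/

set_option autoImplicit false

open Module Classical
open scoped LinearAlgebra.Projectivization

namespace Pool.Agent.Helper13.HE

open Pool.Agent.Helper53.PB (tt line HasParams Form Setup)

universe u v

/-- RKB (rank bound in a subspace with a radical vector).

PROOF. `b` is alternating. Take `C ≤ K` with `C ⊓ span {y} = ⊥`, `C ⊔ span {y} = K`, `finrank C = d`.
For `x ∈ K` write `x = c + a • y`, `c ∈ C`; since `b y` vanishes on `K` (and `b y y = 0`, `b` symmetric),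
`b x x' = b c c'`. Apply `PB.rank_bound` (`Pool.Agent.Helper53.PB.RankBd`) to the space `C`, the restriction of
`QuadraticMap.polarBilin Q` to `C` (`LinearMap.domRestrict₁₂` or `LinearMap.compl₁₂`), the index type `I` and
the vectors `c (P.rep)`. -/
def StRKB : Prop := ∀ (F : Type u) [Field F] [Finite F] (V : Type v) [AddCommGroup V] [Module F V]
  [FiniteDimensional F V] (Q : QuadraticForm F V) (h d : ℕ), Nat.card F = 2 ^ h → 1 ≤ h →
  ∀ (K : Submodule F V) (y : V), y ∈ K → y ≠ 0 → (∀ x ∈ K, QuadraticMap.polar Q y x = 0) →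
  finrank F K = d + 1 → ∀ I : Finset (ℙ F V), (∀ P ∈ I, P.rep ∈ K) →
  (∀ P ∈ I, ∀ R ∈ I, P ≠ R → QuadraticMap.polar Q P.rep R.rep ≠ 0) → I.card ≤ d ^ h + 1

/-- PAR (a subspace of odd dimension has a radical vector).

PROOF. Induction on the dimension `2 k + 1` of `K` (for all `K`). If `b = 0` on `K` take any nonzero `y ∈ K`.
Otherwise `b a a' ≠ 0` for some `a, a' ∈ K`; `K' = {x ∈ K | b a x = 0, b a' x = 0}`, i.e.
`K ⊓ ker (b a) ⊓ ker (b a')`. `K' ⊓ span {a, a'} = ⊥` and every `x ∈ K` is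
`(b a' x / b a' a) a + (b a x / b a a') a' + x'` with `x' ∈ K'`, so `finrank K' = finrank K - 2`
(for instance: `ker (b a)` does not contain `K` as `b a a' ≠ 0`, so `K ⊓ ker (b a)` has dimension one less,
`PB.Polar.finrank_inf_ker`; it contains `a`, not in `ker (b a')`, so the dimension drops again). In particular
`finrank K ≥ 3` (it is odd and at least 2), and by induction there is `0 ≠ y ∈ K'` perpendicular to `K'`; it is
perpendicular to `a`, `a'`, hence to `K` by the displayed decomposition. -/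
def StPAR : Prop := ∀ (F : Type u) [Field F] [Finite F] (V : Type v) [AddCommGroup V] [Module F V]
  [FiniteDimensional F V] (Q : QuadraticForm F V) (h : ℕ), Nat.card F = 2 ^ h → 1 ≤ h →
  ∀ K : Submodule F V, Odd (finrank F K) →
  ∃ y ∈ K, y ≠ 0 ∧ ∀ x ∈ K, QuadraticMap.polar Q y x = 0

/-- CAW (Caro-Wei).

PROOF. Write `deg_S x` for the number in the denominator. (1) Induction on `S.card` (strong). `S = ∅` clear. Let `x ∈ S` have
the least degree `δ`, `N = {x} ∪ {y ∈ S | y ≠ x, r x y}` (`δ + 1` elements, each of degree `≥ δ` in `S`),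
`S' = S \ N`, `I'` the set for `S'` given by induction, `I = I' ∪ {x}` (independent, because
`r` is symmetric). `∑_{y ∈ N} 1/(1+deg_S y) ≤ (δ+1)/(1+δ) = 1`, and for `y ∈ S'` `deg_{S'} y ≤ deg_S y`, so
`∑_{y ∈ S'} 1/(1+deg_S y) ≤ ∑_{y ∈ S'} 1/(1+deg_{S'} y) ≤ I'.card`. (2) follows from (1):
every summand is at least `1/(1+Δ)`. -/
def StCAW : Prop := ∀ (α : Type v) (r : α → α → Prop), (∀ x y, r x y → r y x) → ∀ S : Finset α,
  (∃ I ⊆ S, (∀ x ∈ I, ∀ y ∈ I, x ≠ y → ¬ r x y) ∧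
    ∑ x ∈ S, (1 : ℚ) / (1 + ((S.filter (fun y => y ≠ x ∧ r x y)).card : ℚ)) ≤ I.card) ∧
  ∀ Δ : ℕ, (∀ x ∈ S, (S.filter (fun y => y ≠ x ∧ r x y)).card ≤ Δ) →
    ∃ I ⊆ S, (∀ x ∈ I, ∀ y ∈ I, x ≠ y → ¬ r x y) ∧ S.card ≤ (1 + Δ) * I.card

/-- DEG (neighbours of a point of `T`).

PROOF. Let `A` be the set on the left, `A_H` the index set on the right. For `X ∈ A` the line `l = line P X` contains
`P`, `X ∈ T`, so `tt T l ≥ 2` and `c.ln` gives `mass H m l ≥ 1`: there is `R ∈ H`, `R.rep ∈ l`. `R ≠ P` (`c.dis`),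
`R.rep ∈ K` (`l ≤ K`), `b P R = 0` (`R.rep` is a combination of `P.rep`, `X.rep`, `b P P = b P X = 0`), so
`R ∈ A_H`, and `line P R = line P X` (`PB.line_eq`), so `X ∈ line P R`. Hence
`A ⊆ ⋃_{l ∈ L} (T.filter (rep ∈ l)).erase P` with `L = A_H.image (fun R => line P R)`. For `l = line P R ∈ L`,
`c.ln` (with `X = R`, `c.sH`) says that `(T.filter (rep ∈ l)).erase P` has `mass H m l` elements. So `A.card ≤ ∑_{l ∈ L} mass H m l`
(`Finset.card_biUnion_le`). Finally `∑_{l ∈ L} ∑_{R ∈ H, R ∈ l} m R = ∑_{R ∈ A_H} m R` because for `l ∈ L`,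
`R ∈ H`: `R.rep ∈ l` iff `R ∈ A_H` and `line P R = l` (`→`: `l ≤ K`, `b P` vanishes on `l`, `PB.line_eq`);
use `Finset.sum_fiberwise_of_maps_to`. -/
def StDEG : Prop := ∀ (F : Type u) [Field F] [Finite F] (V : Type v) [AddCommGroup V] [Module F V]
  [FiniteDimensional F V] (Q : QuadraticForm F V) (T H : Finset (ℙ F V)) (m : ℙ F V → ℕ) (h j : ℕ),
  Cfg Q T H m h j → ∀ (K : Submodule F V), ∀ P ∈ T, P.rep ∈ K →
  (T.filter (fun X => X.rep ∈ K ∧ X ≠ P ∧ QuadraticMap.polar Q P.rep X.rep = 0)).card ≤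
    ∑ R ∈ H.filter (fun R => R.rep ∈ K ∧ QuadraticMap.polar Q P.rep R.rep = 0), m R

/-- CLQ (perpendicular points; uses DEG).

PROOF. (2) DEG with `K = ⊤`: besides `P` itself at most `∑ m R ≤ j` (`c.ms`) points. (1) If no point of `T` is in `E`,
`tt T E = 0`. Otherwise take one, `P`; all points of `T` in `E` are perpendicular to `P`: (2). -/
def StCLQ : Prop := ∀ (F : Type u) [Field F] [Finite F] (V : Type v) [AddCommGroup V] [Module F V]
  [FiniteDimensional F V] (Q : QuadraticForm F V) (T H : Finset (ℙ F V)) (m : ℙ F V → ℕ) (h j : ℕ),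
  Cfg Q T H m h j →
  (∀ E : Submodule F V, (∀ P ∈ T, P.rep ∈ E → ∀ X ∈ T, X.rep ∈ E →
    QuadraticMap.polar Q P.rep X.rep = 0) → tt T E ≤ 1 + j) ∧
  ∀ P ∈ T, (T.filter (fun X => QuadraticMap.polar Q P.rep X.rep = 0)).card ≤ 1 + j

/-- GEN (vectors perpendicular to no heavy point; uses RKB, DEG).

PROOF. `K = ker (b u)`, `finrank K = 9` (`b u ≠ 0` by `c.nd`, `c.hd`), `u ∈ K` is perpendicular to `K`. The points of `T` in
`K` are pairwise not perpendicular: for `P ≠ X` in `T ∩ K` with `b P X = 0`, DEG (for `K`, `P`) gives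
`1 ≤ ∑` over `R ∈ H` with `R.rep ∈ K`, i.e. `b u R = 0`: there is none. RKB with `d = 8`:
at most `8 ^ h + 1 = (2 ^ h) ^ 3 + 1` points. -/
def StGEN : Prop := ∀ (F : Type u) [Field F] [Finite F] (V : Type v) [AddCommGroup V] [Module F V]
  [FiniteDimensional F V] (Q : QuadraticForm F V) (T H : Finset (ℙ F V)) (m : ℙ F V → ℕ) (h j : ℕ),
  Cfg Q T H m h j → ∀ u : V, u ≠ 0 → (∀ R ∈ H, QuadraticMap.polar Q u R.rep ≠ 0) →
  nu Q T u ≤ Nat.card F ^ 3 + 1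

/-- EXT (helper53's weights give a `Cfg`).

PROOF. Let `P = (Form.orthogonal Q nd).toPolar`, `q = Nat.card F`. `j (q + 1) < q ^ 3` because `j + 2 ≤ q`; write `hJ` for
this in the form `j * (q + 1) < Fintype.card Unit * q ^ 3`. Take `H = univ.filter (fun X => 0 < PB.eps P T X)` and
`m = PB.eps P T`. Fields. `nd`: let `b x = 0`; `U0` a generator (`PB.Polar.exists_gen_ge`, `PB.Polar.ts_bot`), `finrank U0 = 5`
(`PB.class_gen hp`); `PB.perp_self Q nd` (file HypNb, with `r = 5`) gives `x ∈ U0`, so `Q x = 0`, `x = 0` by `nd`.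
`sT`: `S.block.1`. `sH`, `dis`: `PB.eps_pos`. `cT`: `S.card` (`Fintype.card Unit = 1`). `mp`: definition of `H`. `ms`:
`PB.total_weight S hJ` (terms with `eps = 0` dropped, `Finset.sum_filter_of_ne`). `ln`: `PB.line_weight S hJ` applied to
`P ≠ X`, the totally singular line `PB.line_ts`, and `z = P`; `∑ X ∈ pts l, eps P T X = mass H m l` (drop the zero
terms, `PB.mem_pts`). `up`: the third inequality of `PB.nn_lower S` with `PB.eps_not`
(`tmin = 1 + eps`, first inequality); `P.nn T R = nu Q T R.rep` by `QuadraticMap.polar_comm`. -/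
def StEXT : Prop := ∀ (F : Type u) [Field F] [Finite F] (V : Type v) [AddCommGroup V] [Module F V]
  [FiniteDimensional F V] (Q : QuadraticForm F V)
  (nd : ∀ x, Q x = 0 → (∀ y, QuadraticMap.polar Q x y = 0) → x = 0) (h j : ℕ)
  (T : Finset (ℙ F V)), Nat.card F = 2 ^ h → 1 ≤ h → HasParams (Form.orthogonal Q nd) 10 5 →
  Setup (Form.orthogonal Q nd).toPolar T Unit 3 j → j + 2 ≤ Nat.card F →
  ∃ (H : Finset (ℙ F V)) (m : ℙ F V → ℕ), Cfg Q T H m h j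

/-- TBD (bound for the number `t` of heavy points; uses CAW, DEG).

PROOF. For `P ∈ T` let `H_P = {R ∈ H | b P R = 0}`, `M_P = ∑_{R ∈ H_P} m R`. CAW (1) for `S = T`, `r P X ↔ b P.rep X.rep = 0`, and DEG
(`K = ⊤`: degree `≤ M_P`) give `I ⊆ T`, pairwise not perpendicular, with `I.card ≥ ∑_{P ∈ T} 1/(1+M_P)`; and
`I.card ≤ 10 ^ h + 1` by `PB.rank_bound` (with `B = QuadraticMap.polarBilin Q` and `c.hd`).
Put `c(m) = m/(1+m) - 1/3 = (2m-1)/(3(m+1))`. CLAIM: `1/(1+M_P) ≥ 2/3 - ∑_{R ∈ H_P} c(m R)`. Proof by `Finset` induction of: for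
a finite set `A ⊆ H`, `g(A) = 1/(1+∑_A m) + ∑_A c(m)` is `≥ 2/3`: `g(∅) = 1`; `g({R}) = 2/3`;
if `A ≠ ∅`, `M = ∑_A m ≥ 1`, and `m ≥ 1` is added, then `1/(1+M) - 1/(1+M+m) = m/((1+M)(1+M+m)) ≤ m/(2(2+m)) ≤ c(m)`
(the last step is `3m(m+1) ≤ 2(2m-1)(m+2)`, i.e. `0 ≤ (m+4)(m-1)`).
Sum over `T`: `∑_P ∑_{R ∈ H_P} c(m R) = ∑_{R ∈ H} nu(R) c(m R)` (`nu Q T R.rep`), and `c.up`:
`nu(R) c(m R) ≤ ((1+m)q³ + 1 + j) c(m) ≤ (2m-1)q³/3 + (1+j)·2/3` (`c(m) ≤ 2/3`). So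
`10^h + 1 ≥ (2/3)(q⁴+1+j) - (2j-t)q³/3 - (2/3)t(1+j)`, and `q - j = e + 1` gives the claim
after multiplication by 3. -/
def StTBD : Prop := ∀ (F : Type u) [Field F] [Finite F] (V : Type v) [AddCommGroup V] [Module F V]
  [FiniteDimensional F V] (Q : QuadraticForm F V) (T H : Finset (ℙ F V)) (m : ℙ F V → ℕ) (h j e : ℕ),
  Cfg Q T H m h j → j + e + 1 = Nat.card F →
  Nat.card F ^ 3 * (H.card + 2 + 2 * e) + 2 * (1 + j) ≤ 3 * (10 ^ h + 1) + 2 * H.card * (1 + j)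

/-- LAM (pairs of points of `T` collinear with a heavy point; uses CLQ (1), (2)).

PROOF. Let `p = (P, X)` be counted in `lam T R`: `R.rep = α P.rep + β X.rep` with `α, β ≠ 0` (`R ∉ T`), `0 = Q R.rep = α β b P X`
(`c.sT`, `c.sH`), so `b P X = 0`, `b P R = 0`, and `X ∈ line P R` (`PB.line_eq`). So for fixed `P ∈ T` the number of `X` is `0` unless `b P R = 0`,
and then it is at most `tt T (line P R) - 1 = mass H m (line P R)` (`c.ln`). Hence
`lam T R ≤ ∑_{P ∈ T, b P R = 0} ∑_{R' ∈ H, R' ∈ line P R} m R' = ∑_{R' ∈ H} m R' · #{P ∈ T | b P R = 0, R'.rep ∈ line P R}`.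
For `R' = R` the number is `nu Q T R.rep ≤ (1 + m R)q³ + 1 + j` (`c.up`). For `R' ≠ R` it is at most `1 + j`: if it is not zero, let
`P0` be such a point; `R'.rep ∈ line P0 R` gives `b R R' = 0`, the line `l = line R R'` is totally perpendicular, and
`R'.rep ∈ line P R` means `P.rep ∈ line R R'` (`PB.line_eq`, `R' ≠ R`, `P ≠ R`), so all these `P` lie in `l`:
CLQ (1). Total: `m R ((1 + m R) q³ + 1 + j) + (j - m R)(1 + j) = m R (1 + m R) q³ + j (1 + j)` (`c.ms`). -/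
def StLAM : Prop := ∀ (F : Type u) [Field F] [Finite F] (V : Type v) [AddCommGroup V] [Module F V]
  [FiniteDimensional F V] (Q : QuadraticForm F V) (T H : Finset (ℙ F V)) (m : ℙ F V → ℕ) (h j : ℕ),
  Cfg Q T H m h j → ∀ R ∈ H, lam T R ≤ m R * (1 + m R) * Nat.card F ^ 3 + j * (1 + j)

/-- MOM (moments).

PROOF. (1) `b` is non-degenerate (`c.nd`), so the subspace `K^⊥` of all `u` with `b u x = 0` for `x ∈ K` has dimension
`10 - finrank K` (`LinearMap.BilinForm.finrank_orthogonal`, or: the map `V → Dual K`, `u ↦ b u |_K` is surjective, see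
`PB.surj_dual`), and `q ^ dim` elements (`Module.card_eq_pow_finrank`). Moreover `(K^⊥)^⊥ = K`
(`LinearMap.BilinForm.orthogonal_orthogonal`), so for a point `P`: `K^⊥ ⊆ P^⊥` iff `P.rep ∈ K`; in general
`{u ∈ pe Q K | b u P = 0} = pe Q (K ⊔ span {P.rep})`.
(2) `∑_{u ∈ pe Q K} nu u = ∑_{P ∈ T} #{u ∈ pe Q K | b u P = 0}`; the summand is `q ^ (10 - s)` if `P.rep ∈ K` and `q ^ (9 - s)` otherwise
(`s = finrank K`; then `s ≤ 9`, dimension of `K ⊔ span {P.rep}` is `s + 1`); multiply by `q`.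
(3) `∑_u nu u ^ 2 = ∑_{P, X ∈ T} #{u | b u P = 0, b u X = 0}`, `q ^ 9` for `P = X`, `q ^ 8` for
`P ≠ X` (`line P X` has dimension 2). (4) the same with `u ∈ pe Q (span {R.rep})`: for `P = X` the span of `R, P` has
dimension 2 (`R ∉ T`): `q ^ 8`; for `P ≠ X` it is `q ^ 8` if `R.rep ∈ line P X` and `q ^ 7` if not (dimension 3). The number of ordered
pairs `P ≠ X` is `T.card ^ 2 - T.card`, those with `R.rep ∈ line P X` are `lam T R` many. -/
def StMOM : Prop := ∀ (F : Type u) [Field F] [Finite F] (V : Type v) [AddCommGroup V] [Module F V]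
  [FiniteDimensional F V] [Fintype V] (Q : QuadraticForm F V) (T H : Finset (ℙ F V)) (m : ℙ F V → ℕ)
  (h j : ℕ), Cfg Q T H m h j →
  (∀ K : Submodule F V, (pe Q K).card = Nat.card F ^ (10 - finrank F K)) ∧
  (∀ K : Submodule F V, Nat.card F * ∑ u ∈ pe Q K, nu Q T u =
    Nat.card F ^ (10 - finrank F K) * (T.card + (Nat.card F - 1) * tt T K)) ∧
  (∑ u : V, nu Q T u ^ 2 + T.card * Nat.card F ^ 8 =
    T.card * Nat.card F ^ 9 + T.card ^ 2 * Nat.card F ^ 8) ∧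
  ∀ R ∈ H, ∑ u ∈ Finset.univ.filter (fun u => QuadraticMap.polar Q u R.rep = 0), nu Q T u ^ 2 +
    T.card * Nat.card F ^ 7 + lam T R * Nat.card F ^ 7 =
    T.card * Nat.card F ^ 8 + lam T R * Nat.card F ^ 8 + T.card ^ 2 * Nat.card F ^ 7

/-- COV (subspaces with a big radical contain few points of `T`; uses CLQ (1)).

PROOF. Choose `v₁, v₂ ∈ K` with `K = W ⊔ span {v₁, v₂}` (a complement of `W` in `K` has dimension at most 2; the `vᵢ` may be
zero or dependent). Every vector `w + α v₁ + β v₂` of `K` lies in `E_c = W ⊔ span {v₁ + c v₂}` with `c = β/α` if `α ≠ 0` and in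
`E_∞ = W ⊔ span {v₂}` otherwise. In each of these `q + 1` subspaces `b = 0` (`b W K = 0`, `b v v = 0`), so each
contains at most `1 + j` points of `T` by CLQ (1); `tt T K ≤ ∑ tt T E`. -/
def StCOV : Prop := ∀ (F : Type u) [Field F] [Finite F] (V : Type v) [AddCommGroup V] [Module F V]
  [FiniteDimensional F V] (Q : QuadraticForm F V) (T H : Finset (ℙ F V)) (m : ℙ F V → ℕ) (h j : ℕ),
  Cfg Q T H m h j → ∀ W K : Submodule F V, W ≤ K →
  (∀ x ∈ W, ∀ y ∈ K, QuadraticMap.polar Q x y = 0) → finrank F K ≤ finrank F W + 2 →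
  tt T K ≤ (Nat.card F + 1) * (1 + j)

/-- X3 (three-dimensional subspaces; uses PAR, RKB, CLQ (2)).

PROOF. PAR: `0 ≠ y ∈ K` with `b y K = 0`. Since `h ≥ 2`, `q + 1 ≤ 2(q-1)`, and `2(1+j) ≤ 2(q-1)` (`c.hj`).
Case A, `Q y = 0`. There are no three pairwise non-perpendicular points `P₁, P₂, P₃ ∈ T` in `K`: `P₁, P₂, y` are independent (if
`y = α P₁ + β P₂` then `0 = b y P₁ = β b P₂ P₁`, so `β = 0`, `α = 0`; and `P₁, P₂` are independent), hence a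
basis of `K`, `P₃ = α P₁ + β P₂ + γ y`, `0 = Q P₃ = α β b P₁ P₂`, so `α = 0` or `β = 0`, so
`b P₃ P₂ = 0` or `b P₃ P₁ = 0`. So if `T` has a point `P₁` in `K`, and `P₂` in `K` not perpendicular to `P₁`, all points of
`T` in `K` are perpendicular to `P₁` or to `P₂`: at most `2(1+j)` by CLQ (2). If all are perpendicular to `P₁`: at most `1+j`.
Case B, `Q y ≠ 0`. Any two different points `P, X ∈ T` in `K` are not perpendicular: suppose `b P X = 0`. If `y ∈ line P X`,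
`y = α P + β X`, then `Q y = 0`, a contradiction. Otherwise `P, X, y` span `K`, so `b P K = 0`; then we use `P.rep` in the place
of `y`: it is singular and perpendicular to `K`: Case A gives the bound. So (if we are not in Case A for some other vector) the
points of `T` in `K` are pairwise not perpendicular and RKB with `d = 2` gives at most `2 ^ h + 1 = q + 1`. -/
def StX3 : Prop := ∀ (F : Type u) [Field F] [Finite F] (V : Type v) [AddCommGroup V] [Module F V]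
  [FiniteDimensional F V] (Q : QuadraticForm F V) (T H : Finset (ℙ F V)) (m : ℙ F V → ℕ) (h j : ℕ),
  Cfg Q T H m h j → 2 ≤ h → ∀ K : Submodule F V, finrank F K = 3 →
  tt T K ≤ 2 * (Nat.card F - 1)

/-- X5 (five-dimensional subspaces; uses PAR, RKB, CAW (2), DEG, COV).

PROOF. Let `rad K = {x ∈ K | b x K = 0}`; PAR: `0 ≠ y ∈ rad K`. Note `(q+1)(1+j) ≤ (q+1)(q-1) ≤ q²` (`c.hj`).
Case 1, there is `y' ∈ rad K` independent of `y`. Let `W = span {y, y'}`, `C` a complement of `W` in `K` (dimension 3), PAR for `C`: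
`0 ≠ z ∈ C`, `b z C = 0`, so `b z K = 0`. COV for `W' = W ⊔ span {z}` (dimension 3): `tt T K ≤ (q+1)(1+j) ≤ q²`, enough because
`q² ≤ (1+M)(q²+1)`.
Case 2, `rad K = span {y}`. Let `T₀` be the set of `P ∈ T` in `K` such that every `R ∈ H` in `K` with `b P R = 0` lies in
`rad K`. At most one point lies in `rad K`, so by DEG every `P ∈ T₀` is perpendicular to at most `M` other points of
`T` in `K` (the sum in DEG is empty or has one term `m R ≤ M`). CAW (2) for `S = T₀`: `I ⊆ T₀` pairwise not perpendicular,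
`T₀.card ≤ (1+M) I.card`, and `I.card ≤ 4^h + 1 = q² + 1` by RKB (`d = 4`, `y`). Every `P ∈ T` in `K`, `P ∉ T₀`, is
perpendicular to some `R ∈ H` in `K`, `R ∉ rad K`, so it lies in `K_R = {x ∈ K | b R x = 0}`, of dimension 4
(`PB.Polar.finrank_inf_ker`). `W = span {R.rep, y}` has dimension 2 (`R ∉ rad K`), `W ≤ K_R`, `b W K_R = 0`: COV gives
`tt T K_R ≤ (q+1)(1+j) ≤ q²`. Sum over `R ∈ H`: at most `H.card q²` such points. -/
def StX5 : Prop := ∀ (F : Type u) [Field F] [Finite F] (V : Type v) [AddCommGroup V] [Module F V]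
  [FiniteDimensional F V] (Q : QuadraticForm F V) (T H : Finset (ℙ F V)) (m : ℙ F V → ℕ) (h j : ℕ),
  Cfg Q T H m h j → ∀ (K : Submodule F V) (M : ℕ), finrank F K = 5 →
  (∀ R ∈ H, R.rep ∈ K → m R ≤ M) →
  tt T K ≤ (1 + M) * (Nat.card F ^ 2 + 1) + H.card * Nat.card F ^ 2

/-- SIV (the sieve).  `d` is any function, `ν u` the number of `R ∈ H` with `b u R = 0`.

PROOF. For `K` a subspace and `S ⊆ H.erase R1` let `A(K, S) = ∑ d u` over `u ∈ pe Q K` with `b u R1 ≠ 0` and `b u R ≠ 0` for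
`R ∈ S`. Put `f i s = ws (s + i) + wb (s + i + 1)`.
STEP 1. `(-1)^s A(K,S) ≤ β(s, S.card)` for `s = finrank K ≥ 2`, `β(s,k) = ∑_{i ≤ k} C(k,i) f i s` (`≥ 0`). `Finset` induction on `S`, for all
`K`. `S = ∅`: if `R1.rep ∈ K` then `A = 0`; otherwise `A(K,∅) = ∑_{pe Q K} d - ∑_{pe Q (K ⊔ span {R1.rep})} d` (`pe Q (K ⊔ span {R.rep})` is
the set of `u ∈ pe Q K` with `b u R = 0`) and the second subspace has dimension `s + 1` and contains `R1`: the hypotheses give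
`≤ ws s + wb (s+1)`. `insert R S`: if `R.rep ∈ K` then `A = 0 ≤ β`; otherwise
`A(K, insert R S) = A(K,S) - A(K ⊔ span {R.rep}, S)`, so `(-1)^s A ≤ β(s,k) + β(s+1,k) = β(s,k+1)` (Pascal:
`C(k+1,i) = C(k,i) + C(k,i-1)` and `f (i-1) (s+1) = f i s`).
STEP 2. For `R ∈ H.erase R1`, `R ∉ S ⊆ H.erase R1` let `C(R,S) = ∑ d u` over `u` with `b u R = 0` and (`b u R1 = 0` or `b u R' = 0` for some `R' ∈ S`). Then
`C(R,S) ≤ wb 2 + ∑_{i < k} C(k, i+1) f i 2`, `k = S.card`. `S = ∅`: `C(R,∅) = ∑_{pe Q (span {R, R1})} d ≤ wb 2` (dimension 2, contains `R1`).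
`C(R, insert R' S) = C(R,S) + A(span {R.rep, R'.rep}, S)` and STEP 1 with `s = 2`; `C(k,i+1) + C(k,i) = C(k+1,i+1)`.
STEP 3. For `S ⊆ H.erase R1` let `G(S) = ∑_u (ν_S u - 1)⁺ d u`, `ν_S u` the number of `R ∈ insert R1 S` with `b u R = 0` (natural subtraction). Then
`G(S) ≤ k wb 2 + ∑_i C(k, i+2) f i 2`: `G(∅) = 0`, `G(insert R S) = G(S) + C(R,S)` (`(ν+1-1)⁺ - (ν-1)⁺ = 1` if `ν ≥ 1` and `0` if
`ν = 0`), `C(k,i+1) + C(k,i+2) = C(k+1,i+2)`, and `1 = C(k,0)` for the first term.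
STEP 4. `S = H.erase R1`, `k = H.card - 1`: `k wb 2 = C(k,1) wb 2`, `∑_i C(k,i+2) ws (i+2) = ∑_{s ≥ 2} C(k,s) ws s`,
`∑_i C(k,i+2) wb (i+3) = ∑_{s ≥ 3} C(k,s-1) wb s`; terms with `s > N` vanish.
(It is convenient to let all sums over `i` run over `Finset.range (N + 1)` or over `Finset.range` of any number `≥ k` and to use
`ws s = wb s = 0` for `s > N`, `Nat.choose_eq_zero_of_lt`.) -/
def StSIV : Prop := ∀ (F : Type u) [Field F] [Finite F] (V : Type v) [AddCommGroup V] [Module F V]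
  [FiniteDimensional F V] [Fintype V] (Q : QuadraticForm F V) (H : Finset (ℙ F V)) (R1 : ℙ F V)
  (d : V → ℤ) (ws wb : ℕ → ℤ) (N : ℕ), R1 ∈ H → (∀ s, 0 ≤ ws s) → (∀ s, 0 ≤ wb s) →
  (∀ s, N < s → ws s = 0 ∧ wb s = 0) →
  (∀ K : Submodule F V, 2 ≤ finrank F K → R1.rep ∉ K →
    (-1) ^ (finrank F K) * ∑ u ∈ pe Q K, d u ≤ ws (finrank F K)) →
  (∀ K : Submodule F V, 2 ≤ finrank F K → R1.rep ∈ K →
    (-1) ^ (finrank F K) * ∑ u ∈ pe Q K, d u ≤ wb (finrank F K)) →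
  ∑ u : V, (((H.filter (fun R => QuadraticMap.polar Q u R.rep = 0)).card - 1 : ℕ) : ℤ) * d u ≤
    ∑ s ∈ Finset.Icc 2 N, (((H.card - 1).choose s : ℤ) * ws s +
      ((H.card - 1).choose (s - 1) : ℤ) * wb s)

/-- FNB (numerical inequalities), `x = (5/4)^h`, `q = 2^h`, `a = 3x - 3.9`, `b = 3x - 6.9`.

PROOF. For `4 ≤ h ≤ 24`: `interval_cases h` and `norm_num` (rational numbers). For `h ≥ 25`: `x ≥ 264` and `x³ ≤ 0.56 q` (true for
`h = 25`; from `h` to `h+1` the left side is multiplied by `125/64 < 2`). So `x² ≤ 0.56 q/264 ≤ 0.00213 q`, `x⁶ ≤ 0.3136 q²`, `x⁵ ≤ 0.3136 q²/264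
≤ 0.00119 q²`, `x⁸ = x⁶ x² ≤ 0.00067 q³`, `3x ≤ 0.00001 q`, `q ≥ 3·10⁷`. (N0) `a (a - 1) ≤ 9x² ≤ 0.02 q`. (N1): `0 < b < a < 3x`; the bracket is at most
`0.6·9x²/q + 3x² + 27x³/24 + 729x⁶/(5040q) + 6561x⁸/(362880q³) ≤ 0.02 + 0.0064 q + 0.63 q + 0.0454 q + 0.0002`, times `1.01`
it is `< 0.7 q < (7/8)(q - 3x)`. (N2): `3.02·243x⁵/120 ≤ 6.12·0.00119 q² ≤ 0.008 q² ≤ q(q-3x)/8`. (The constants have been checked numerically:
the quotient of the two sides of (N1) is at most `.85`, of (N2) at most `.85`, of (N0) at most `.98`.) -/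
def StFNB : Prop := ∀ h : ℕ, 4 ≤ h → ∀ x q a b : ℝ, x = (5 / 4 : ℝ) ^ h → q = (2 : ℝ) ^ h →
  a = 3 * x - 39 / 10 → b = 3 * x - 69 / 10 →
  0 < b ∧ 3 * x < q ∧ 6 * x / q ^ 2 + 3 / q ^ 3 ≤ 1 / 10 ∧ a * (a - 1) ≤ q - 3 * x ∧
  101 / 100 * (6 / 10 * a ^ 2 / q + a ^ 2 / 3 + b ^ 3 / 24 + a ^ 6 / (5040 * q) +
    a ^ 8 / (362880 * q ^ 3)) < 7 / 8 * (q - 3 * x) ∧
  302 / 100 * (b ^ 5 / 120) ≤ q * (q - 3 * x) / 8

/-- FIN (the final inequality; uses FNB).  `t` = number of heavy points, `μ` the largest mass, `D = j - μ`.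

PROOF (in real numbers). `N = q - 1`, `x = (5/4)^h`, so `10^h = x q³`; `a = 3x - 3.9`, `b = 3x - 6.9`.
(i) The last hypothesis reads `q³(t+2+2e) ≤ 3xq³ + 3 + 2(t-1)(1+j)`, `1+j ≤ q`, so `t+2+2e ≤ 3x + 3/q³ + 2(t-1)/q²`. As
`t ≤ D+1 ≤ j+1 ≤ q` and `q ≥ 16`, first `t ≤ 3x`, and then `t + 2 + 2e ≤ 3x + 3/q³ + 6x/q² ≤ 3x + 0.1`. So `t ≤ 3x - 1.9 - 2e ≤ a`, and
`j - t = q - 1 - e - t ≥ q - 3x + 0.9 + e ≥ q - 3x > 0`.
(ii) `μ ≥ t`: by FNB `t(t-1) ≤ a(a-1) ≤ q - 3x ≤ j - t`, so `t² ≤ j ≤ tμ`. (`μ ≥ 1`.)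
(iii) `W := je + D(μ-1) - (t-1)`. With `L ≤ q³S + tj(1+j)`: `j(q⁴+1+j)(q-t) - N L ≥ q³A - q(t-1)j(1+j)`, `A = jq(q-t) - N S`, and with
`S ≤ μ(μ+1) + D(D+3-t)`, `j = μ + D`, `q = N + 1 = j + e + 1` one gets the identity
`jq(q-t) - N(μ(μ+1) + D(D+3-t)) = N(je + Dμ + (D-t+1)μ - D) - j(t-1) ≥ N(je + D(μ-1)) - j(t-1)`. Hence
`j(q⁴+1+j)(q-t) - N L ≥ q³N(je + D(μ-1)) - (t-1)(q³j + qj(1+j)) ≥ q³ N W`, because `q³j + qj(1+j) ≤ q³N`, i.e. `j(q²+1+j) ≤ q²(q-1)`,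
true for `j ≤ q - 2`. So it is enough to show `(q³+1) Z < q¹⁰ N W`.
(iv) `g := e + t - 1 ≥ t`. `D(μ-1) - (t-1)(j-t) = (D-t+1)(μ-t) ≥ 0`, so `W ≥ je + (t-1)(j-t-1) = gj - (t²-1) ≥ g(j-t) ≥ g(q-3x) > 0`.
(v) if `t ≥ 6`, `m₂ = min μ D` (`≥ 1`): `D(μ-1) ≥ (m₂-1)j/2` (if `μ ≤ D` then `D ≥ j/2`; if `D < μ` then
`D(μ-1) ≥ D(j/2-1) ≥ (D-1)j/2` as `D ≤ j/2`), so `W ≥ j + (m₂-1)j/2 - (t-1) ≥ (1+m₂)(j-t+1)/2 ≥ (1+m₂)(q-3x)/2`.
(vi) Divide `Z` by `q⁷N`; write `C(n,k)` for binomial coefficients, `q⁴+1+j ≤ q⁴+q`. `E2 = e C(t,2)/N`, `E4 = e C(t,4)/(q²N)`, `E6 = e C(t,6)/(q⁴N)`,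
`E8 = e C(t,8)/(q⁶N)`: as `e ≤ g`, `t ≤ q`, `C(t,k) ≤ t^k/k!`, the sum is at most `g t²(1/2+1/24+1/720+1/40320)/N ≤ 0.6 g t²/q` (`N ≥ 15q/16`).
`E3 = 2N C(t,3)/q ≤ t(t-1)(t-2)/3 ≤ g t²/3`. `E5 = (C(t-1,4)X5b + C(t-1,5)X5s)/q³`, `X5b = (1+μ)(q²+1) + tq² ≤ q³+q` (`1+μ+t ≤ j+2 ≤ q+1-e`),
`C(t-1,4) = 0` for `t ≤ 4` and `C(t-1,4) = (t-1)(t-2)(t-3)(t-4)/24 ≤ g(t-3)³/24 ≤ g b³/24` for `t ≥ 5`: first part `≤ g(b³/24)(1+1/q²)`. Second part:
`C(t-1,5) = 0` for `t ≤ 5`, `≤ (t-3)⁵/120 ≤ b⁵/120` for `t ≥ 6`, and by (v), (iv)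
`X5s/q³ ≤ ((1+m₂)(1+1/q²) + t)/q ≤ (2(1+1/q²) + 1)W/(q(q-3x)) ≤ 3.01 W/(q(q-3x))`. `E7 = C(t,7)(q⁴+1+j)/q⁵ ≤ g t⁶(1+1/q³)/(5040q)`,
`E9 = C(t,9)(q⁴+1+j)/q⁷ ≤ g t⁸(1+1/q³)/(362880q³)`. With `(1+1/q³)(1+1/q²) ≤ 1.005` and FNB (N1), (N2), `t ≤ a`:
`(1+1/q³)Z/(q⁷N) < g·(7/8)(q-3x) + W/8 ≤ W`. -/
def StFIN : Prop := ∀ (h j e t μ D : ℕ) (q S L Z : ℤ), 4 ≤ h → q = 2 ^ h → (j : ℤ) + e + 1 = q →
  1 ≤ e → 1 ≤ t → μ + D = j → t ≤ D + 1 → j ≤ t * μ →
  S ≤ μ * (μ + 1) + D * (D + 3 - t) → L ≤ q ^ 3 * S + t * (j * (1 + j)) →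
  Z ≤ (t.choose 2) * e * q ^ 7 + (t.choose 3) * (2 * (q - 1) ^ 2 * q ^ 6) +
    (t.choose 4) * e * q ^ 5 +
    q ^ 4 * (q - 1) * (((t - 1).choose 5 : ℕ) * ((1 + (min μ D : ℕ)) * (q ^ 2 + 1) + t * q ^ 2) +
      ((t - 1).choose 4 : ℕ) * ((1 + μ) * (q ^ 2 + 1) + t * q ^ 2)) +
    (t.choose 6) * e * q ^ 3 + (t.choose 7) * (q ^ 2 * (q - 1) * (q ^ 4 + 1 + j)) +
    (t.choose 8) * e * q + (t.choose 9) * ((q - 1) * (q ^ 4 + 1 + j)) →
  q ^ 3 * (t + 2 + 2 * e) + 2 * (1 + j) ≤ 3 * (10 ^ h + 1) + 2 * t * (1 + j) →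
  q ^ 7 * (q - 1) * L + (q ^ 3 + 1) * Z < q ^ 7 * (j * (q ^ 4 + 1 + j) * (q - t))

end Pool.Agent.Helper13.HE
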